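import Pool.Agent.Run7.h538.TP.Stm

set_option autoImplicit false

open Finset Matrix

namespace Run7.h579.TP

open Run7.h538.TP

/-- the resolvent is a polynomial of degree less than `n` in the matrix -/
theorem res_poly {n : ℕ} (T R : Matrix (Fin n) (Fin n) ℝ) (a : ℝ) (h : (T - a • 1) * R = 1) :
    ∃ q : Polynomial ℝ, q.degree < (n : WithBot ℕ) ∧ R = Polynomial.aeval T q := by
  obtain ⟨p, hp⟩ : ∃ p, p = T.charpoly := ⟨_, rfl⟩
  obtain ⟨Q, hQ⟩ : ∃ Q, Q = p /ₘ (Polynomial.X - Polynomial.C a) := ⟨_, rfl⟩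
  have hpm : p.Monic := by rw [hp]; exact T.charpoly_monic
  have hdegp : p.degree = n := by
    rw [hp, Matrix.charpoly_degree_eq_dim, Fintype.card_fin]
  have hdeg : Q.degree < (n : WithBot ℕ) := by
    rw [hQ, ← hdegp]
    refine Polynomial.degree_divByMonic_lt p _ hpm.ne_zero ?_
    rw [Polynomial.degree_X_sub_C]
    exact zero_lt_one
  have hdiv : Polynomial.C (p.eval a) + (Polynomial.X - Polynomial.C a) * Q = p := by
    rw [← Polynomial.modByMonic_X_sub_C_eq_C_eval, hQ]
    exact Polynomial.modByMonic_add_div p (Polynomial.X - Polynomial.C a)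
  have h0 : Polynomial.aeval T p = 0 := by
    rw [hp]
    exact Matrix.aeval_self_charpoly T
  have h1 : (p.eval a) • (1 : Matrix (Fin n) (Fin n) ℝ) + (T - a • 1) * Polynomial.aeval T Q = 0 := by
    rw [← hdiv] at h0
    rw [map_add, map_mul, map_sub, Polynomial.aeval_C, Polynomial.aeval_X, Polynomial.aeval_C,
      Algebra.algebraMap_eq_smul_one, Algebra.algebraMap_eq_smul_one] at h0
    exact h0
  have h2 : R * (T - a • 1) = 1 := mul_eq_one_comm.mp h
  have h3 : (p.eval a) • R + Polynomial.aeval T Q = 0 := by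
    have h4 : R * ((p.eval a) • (1 : Matrix (Fin n) (Fin n) ℝ) + (T - a • 1) * Polynomial.aeval T Q) =
        R * 0 := congrArg (fun M => R * M) h1
    rw [mul_add, ← mul_assoc, h2, one_mul, mul_zero, mul_smul_comm, mul_one] at h4
    exact h4
  have hne : p.eval a ≠ 0 := by
    intro he
    have h5 : (T - a • 1).det * R.det = 1 := by rw [← Matrix.det_mul, h, Matrix.det_one]
    have h6 : p.eval a = (Matrix.scalar (Fin n) a - T).det := by
      rw [hp]
      exact Matrix.eval_charpoly T a
    have h7 : (Matrix.scalar (Fin n) a - T) = -(T - a • 1) := by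
      rw [neg_sub, Matrix.scalar_apply, Matrix.smul_one_eq_diagonal]
    rw [he, h7, Matrix.det_neg] at h6
    have h8 : (T - a • 1).det ≠ 0 := fun e => by
      rw [e, zero_mul] at h5
      exact zero_ne_one h5
    exact mul_ne_zero (pow_ne_zero _ (by norm_num)) h8 h6.symm
  refine ⟨Polynomial.C (-(p.eval a)⁻¹) * Q, ?_, ?_⟩
  · rw [Polynomial.degree_C_mul (neg_ne_zero.mpr (inv_ne_zero hne))]
    exact hdeg
  · rw [map_mul, Polynomial.aeval_C, Algebra.algebraMap_eq_smul_one, smul_mul_assoc, one_mul]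
    have h9 : Polynomial.aeval T Q = -((p.eval a) • R) := by
      rw [eq_neg_iff_add_eq_zero, add_comm]
      exact h3
    rw [h9, smul_neg, neg_smul, neg_neg, smul_smul, inv_mul_cancel₀ hne, one_smul]

theorem t_DD : S_DD := by
  intro n T μ R _ hR
  choose q hq1 hq2 using fun i => res_poly T (R i) (μ i) (hR i)
  let Φ : (Fin (n + 2) → ℝ) →ₗ[ℝ] ℝ × (Fin n → ℝ) :=
    { toFun := fun d => (∑ i, d i, fun k => ∑ i, d i * (q i).coeff k)
      map_add' := by
        intro d e
        ext k
        · simp [Finset.sum_add_distrib]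
        · simp [add_mul, Finset.sum_add_distrib]
      map_smul' := by
        intro c d
        ext k
        · simp [Finset.mul_sum]
        · simp [Finset.mul_sum, mul_assoc] }
  have hker : LinearMap.ker Φ ≠ ⊥ := by
    apply LinearMap.ker_ne_bot_of_finrank_lt
    simp
    omega
  obtain ⟨d, hd, hd0⟩ := Submodule.exists_mem_ne_zero_of_ne_bot hker
  rw [LinearMap.mem_ker] at hd
  have h1 : ∑ i, d i = 0 := congrArg Prod.fst hd
  have h2 : ∀ k : Fin n, ∑ i, d i * (q i).coeff k = 0 := fun k => congrFun (congrArg Prod.snd hd) k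
  refine ⟨d, hd0, h1, ?_⟩
  have h3 : ∑ i, Polynomial.C (d i) * q i = 0 := by
    ext k
    rw [Polynomial.finsetSum_coeff, Polynomial.coeff_zero]
    by_cases hk : k < n
    · have := h2 ⟨k, hk⟩
      simpa [Polynomial.coeff_C_mul] using this
    · refine Finset.sum_eq_zero fun i _ => ?_
      rw [Polynomial.coeff_C_mul, Polynomial.coeff_eq_zero_of_degree_lt, mul_zero]
      refine lt_of_lt_of_le (hq1 i) ?_
      exact_mod_cast not_lt.mp hk
  have h4 := congrArg (Polynomial.aeval T) h3
  rw [map_sum, map_zero] at h4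
  rw [← h4]
  refine Finset.sum_congr rfl fun i _ => ?_
  rw [map_mul, Polynomial.aeval_C, Algebra.algebraMap_eq_smul_one, smul_mul_assoc, one_mul, hq2 i]

end Run7.h579.TP
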